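import Pool.Agent.X151.QG.Wheel

/-!
A compact metric graph (the wheel with four spokes and all edges of equal length) with a
delta-condition at the hub whose hot-spot set is infinite but not the whole graph.
-/

namespace Pool.Agent.Results.MP_1debac_an.WheelDelta

open Pool.Agent.X151.QG

theorem sinc_lt {x y : ℝ} (h0 : 0 < x) (h1 : x < y) (h2 : y < Real.pi / 2) :
    Real.sin y / y < Real.sin x / x := by
  have hp := Real.pi_pos
  have := strictConcaveOn_sin_Icc.secant_strict_mono (a := 0) (x := x) (y := y)
    ⟨le_rfl, hp.le⟩ ⟨h0.le, by linarith⟩ ⟨by linarith, by linarith⟩ h0.ne' (by linarith) h1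
  simpa using this

theorem c_half : 7 / 8 ≤ Real.cos (1 / 2) := by
  have := Real.one_sub_sq_div_two_le_cos (x := 1 / 2)
  norm_num at this ⊢
  exact this

/-- The strength at the hub. -/
noncomputable def str : ℝ := (4 / (3 * Real.cos (1 / 2) - 2) - 4 * Real.cos (1 / 2)) /
  (Real.sin (1 / 2) / (1 / 2))

theorem sin_half_pos : 0 < Real.sin (1 / 2) :=
  Real.sin_pos_of_pos_of_lt_pi (by norm_num) (by linarith [Real.pi_gt_three])

theorem cos_half_lt : Real.cos (1 / 2) < 1 := by
  nlinarith [Real.sin_sq_add_cos_sq (1 / 2), sin_half_pos, c_half]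

theorem str_pos : 0 < str := by
  have h1 := c_half
  have h2 := sin_half_pos
  have h3 := cos_half_lt
  unfold str
  apply div_pos _ (by positivity)
  have h4 : 0 < 3 * Real.cos (1 / 2) - 2 := by linarith
  have h5 : 4 ≤ 4 / (3 * Real.cos (1 / 2) - 2) := by
    rw [le_div_iff₀ h4]; linarith
  linarith

theorem eq_half : (3 * Real.cos (1 / 2) - 2) *
    (4 * Real.cos (1 / 2) + str / (1 / 2) * Real.sin (1 / 2)) = 4 := by
  have h1 := c_half
  have h2 := sin_half_pos
  have h4 : 0 < 3 * Real.cos (1 / 2) - 2 := by linarith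
  unfold str
  field_simp
  ring

theorem low_unique {k : ℝ} (h0 : 0 < k) (h1 : k < Real.pi / 2)
    (h : (3 * Real.cos k - 2) * (4 * Real.cos k + str / k * Real.sin k) = 4) : k = 1 / 2 := by
  have hp := Real.pi_gt_three
  have h2 := eq_half
  have hcos : 0 < Real.cos k := Real.cos_pos_of_mem_Ioo ⟨by linarith, h1⟩
  have hsin : 0 < Real.sin k := Real.sin_pos_of_pos_of_lt_pi h0 (by linarith)
  have hst := str_pos
  have e1 : str / k * Real.sin k = str * (Real.sin k / k) := by ring
  have e2 : str / (1 / 2) * Real.sin (1 / 2) = str * (Real.sin (1 / 2) / (1 / 2)) := by ring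
  rw [e1] at h
  rw [e2] at h2
  have hq1 : 0 < Real.sin k / k := by positivity
  have hq2 : 0 < Real.sin (1 / 2) / (1 / 2) := div_pos sin_half_pos (by norm_num)
  have hch := c_half
  rcases lt_trichotomy k (1 / 2) with hk | hk | hk
  · exfalso
    have hs := sinc_lt h0 hk (by linarith)
    have hc := Real.cos_lt_cos_of_nonneg_of_le_pi_div_two h0.le (by linarith) hk
    have hA : 3 * Real.cos (1 / 2) - 2 < 3 * Real.cos k - 2 := by linarith
    have hB : 4 * Real.cos (1 / 2) + str * (Real.sin (1 / 2) / (1 / 2)) <
        4 * Real.cos k + str * (Real.sin k / k) := by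
      have := mul_lt_mul_of_pos_left hs hst
      linarith
    have := mul_lt_mul'' hA hB (by linarith) (by positivity)
    linarith
  · exact hk
  · exfalso
    have hs := sinc_lt (x := 1 / 2) (by norm_num) hk h1
    have hc := Real.cos_lt_cos_of_nonneg_of_le_pi_div_two (x := 1 / 2) (by norm_num) h1.le hk
    have hB0 : 0 < 4 * Real.cos k + str * (Real.sin k / k) := by positivity
    have hA0 : 0 ≤ 3 * Real.cos k - 2 := by
      by_contra hneg
      push Not at hneg
      have := mul_neg_of_neg_of_pos hneg hB0
      linarith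
    have hA : 3 * Real.cos k - 2 < 3 * Real.cos (1 / 2) - 2 := by linarith
    have hB : 4 * Real.cos k + str * (Real.sin k / k) <
        4 * Real.cos (1 / 2) + str * (Real.sin (1 / 2) / (1 / 2)) := by
      have := mul_lt_mul_of_pos_left hs hst
      linarith
    have := mul_lt_mul'' hA hB hA0 hB0.le
    linarith

/-- Vertex values of the ground state. -/
noncomputable def ground : Option (Fin 4) → ℝ
  | none => 3 * Real.cos (1 / 2) - 2
  | some _ => 1

theorem ground_eigen : wheel.IsEigen (hubStr str) ((1 / 2) ^ 2)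
    (lift wheel (1 / 2) ground) := by
  have hp := Real.pi_gt_three
  apply eigen_of_disc _ (by norm_num) (wheel_sin (by norm_num) (by linarith))
  · exact ⟨some 0, one_ne_zero⟩
  · intro v
    rcases v with _ | j
    · apply (disc_wheel_hub _ sin_half_pos.ne' _).2
      have h := eq_half
      simp only [ground, hubStr]
      have : str * (3 * Real.cos (1 / 2) - 2) / (1 / 2) * Real.sin (1 / 2) =
        (3 * Real.cos (1 / 2) - 2) * (str / (1 / 2) * Real.sin (1 / 2)) := by ring
      rw [this]
      linarith
    · apply (disc_wheel_rim _ sin_half_pos.ne' _ j).2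
      simp only [ground, hubStr]
      ring

theorem second : wheel.IsSecond (hubStr str) ((Real.pi / 2) ^ 2) := by
  have hp := Real.pi_gt_three
  have hst := str_pos
  have hpos : ∀ t f, wheel.IsEigen (hubStr str) t f → 0 < t := by
    intro t f hf
    by_contra hle
    push Not at hle
    have := (eigen_nonneg (Γ := wheel) (α := hubStr str) (by
      intro v
      rcases v with _ | j
      · exact hst.le
      · exact le_rfl) hf hle).2 none
    exact hst.ne' this
  have hlow : ∀ t f, wheel.IsEigen (hubStr str) t f → t < (Real.pi / 2) ^ 2 → t = (1 / 2) ^ 2 := by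
    intro t f hf hlt
    have ht := hpos t f hf
    have hk : Real.sqrt t < Real.pi / 2 := by
      rw [show Real.pi / 2 = Real.sqrt ((Real.pi / 2) ^ 2) from
        (Real.sqrt_sq (by positivity)).symm]
      exact Real.sqrt_lt_sqrt ht.le hlt
    have hf' : wheel.IsEigen (hubStr str) (Real.sqrt t ^ 2) f := by
      rwa [Real.sq_sqrt ht.le]
    have := low_unique (Real.sqrt_pos.2 ht) hk (wheel_low (Real.sqrt_pos.2 ht) hk hf')
    rw [← this, Real.sq_sqrt ht.le]
  have hlt : ((1 : ℝ) / 2) ^ 2 < (Real.pi / 2) ^ 2 := by nlinarith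
  refine ⟨(1 / 2) ^ 2, ⟨⟨_, ground_eigen⟩, ?_⟩, ⟨hlt, _, rot_eigen str 0⟩, ?_⟩
  · rintro t ⟨f, hf⟩
    by_contra h
    push Not at h
    have := hlow t f hf (lt_trans h hlt)
    linarith
  · rintro t ⟨ht, f, hf⟩
    by_contra h
    push Not at h
    have := hlow t f hf h
    linarith

/-- There are a compact metric graph and strengths of delta-conditions at its vertices, not all
zero, for which the set `M` of the points where some second eigenfunction attains its global
maximum or minimum is infinite and different from the whole graph. -/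
theorem result : ∃ (Γ : MetricGraph) (α : Γ.V → ℝ), (∃ v, α v ≠ 0) ∧
    (Γ.M α).Infinite ∧ Γ.M α ≠ Set.univ :=
  ⟨wheel, hubStr str, ⟨none, str_pos.ne'⟩, wheel_M str_pos.le second⟩

end Pool.Agent.Results.MP_1debac_an.WheelDelta
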